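import Pool.Agent.Helper6K1.ZP.Comm

/-!
Families of subgroups with connected commutation graph.
-/

set_option autoImplicit false
set_option linter.unusedSectionVars false

namespace Pool.Agent.Helper6K1.ZQ

open LinearMap Pool.Agent.Helper6K1.ZP

noncomputable section

variable {k : Type} [CommRing k] {Q : Type} [Group Q]
  {D : ℕ → Type} [∀ n, AddCommGroup (D n)] [∀ n, Module k (D n)]
  (σ : ∀ n, Representation k Q (D n)) (d : ∀ n, D (n + 1) →ₗ[k] D n)
  {M : Type} [AddCommGroup M] [Module k M] (ρ : Representation k Q M)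

variable (hσ : ∀ n g x, d n (σ (n + 1) g x) = σ n g (d n x)) (hdd : ∀ n x, d n (d (n + 1) x) = 0)
  (hP : ∀ (H : Type) [Group H] (j : H →* Q), Function.Injective j → ∀ n, Proj ((σ n).comp j))

/-- an equivariant cocycle vanishes on the cycles -/
lemma van {T : ℕ} {Γ : Subgroup Q} (hG : Gen σ d ρ T Γ) {t : ℕ} (ht : t + 1 ≤ T)
    (f : D (t + 1) →ₗ[k] M) (hf : Eqv (Γ : Set Q) (σ (t + 1)) ρ f) (hfd : f ∘ₗ d (t + 1) = 0)
    (z : D (t + 1)) (hz : d t z = 0) : f z = 0 := by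
  obtain ⟨p, b, a, -, ha, hba⟩ := hG
  have h1 := LinearMap.congr_fun hba (f z)
  rw [LinearMap.sum_apply, LinearMap.id_apply] at h1
  rw [← h1]
  refine Finset.sum_eq_zero fun j _ => ?_
  rw [LinearMap.comp_apply, ← alg_comm (σ (t + 1)) ρ Γ f (fun g hg x => hf g hg x) (a j) z]
  obtain ⟨y, hy⟩ := ha j (t + 1) ht z hz
  rw [← hy]
  have h2 : f (d (t + 1) y) = 0 := LinearMap.congr_fun hfd y
  rw [h2, map_zero]

section contr

include hσ hP

/-- a contraction in low degrees -/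
lemma contr (K : Subgroup Q) (h0 : ∀ x : D 0, ∃ y, d 0 y = x)
    (h1 : ∀ x : D 1, d 0 x = 0 → ∃ y, d 1 y = x) :
    ∃ (s0 : D 0 →ₗ[k] D 1) (s1 : D 1 →ₗ[k] D 2), Eqv (K : Set Q) (σ 0) (σ 1) s0 ∧
      Eqv (K : Set Q) (σ 1) (σ 2) s1 ∧ (∀ x, d 0 (s0 x) = x) ∧
      ∀ x, d 1 (s1 x) = x - s0 (d 0 x) := by
  have hPK : ∀ n, Proj ((σ n).comp K.subtype) := fun n => hP K K.subtype Subtype.val_injective n
  have hd : ∀ n, Eqv (K : Set Q) (σ (n + 1)) (σ n) (d n) := fun n g _ x => hσ n g x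
  obtain ⟨s0, hs0, hs0'⟩ := (hPK 0).lift' (σ 1) (σ 0) (d 0) (hd 0) LinearMap.id
    (fun g _ x => rfl) h0
  obtain ⟨s1, hs1, hs1'⟩ := (hPK 1).lift' (σ 2) (σ 1) (d 1) (hd 1) (LinearMap.id - s0 ∘ₗ d 0)
    (Eqv.sub (fun g _ x => rfl) (hs0.comp (hd 0))) (fun x => h1 _ (by
      rw [LinearMap.sub_apply, map_sub, LinearMap.comp_apply, hs0']
      exact sub_self _))
  exact ⟨s0, s1, hs0, hs1, hs0', hs1'⟩

end contr

include hσ hdd hP

/-- exactness in degree zero and one -/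
lemma coEx_low (K : Subgroup Q) (h0 : ∀ x : D 0, ∃ y, d 0 y = x)
    (h1 : ∀ x : D 1, d 0 x = 0 → ∃ y, d 1 y = x) (t : ℕ) (ht : t ≤ 1) :
    CoEx σ d ρ (K : Set Q) t := by
  obtain ⟨s0, s1, hs0, hs1, e0, e1⟩ := contr σ d hσ hP K h0 h1
  intro f hf hfd
  have hf0 : ∀ y, f (d t y) = 0 := fun y => LinearMap.congr_fun hfd y
  rcases Nat.le_one_iff_eq_zero_or_eq_one.1 ht with rfl | rfl
  · refine LinearMap.ext fun x => ?_
    rw [← e0 x]
    exact hf0 _
  · refine ⟨f ∘ₗ s0, hf.comp hs0, LinearMap.ext fun x => ?_⟩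
    rw [LinearMap.comp_apply, LinearMap.comp_apply]
    have h2 := hf0 (s1 x)
    rw [e1, map_sub, sub_eq_zero] at h2
    exact h2.symm

/-- exactness in degree two -/
lemma coEx_two (K : Subgroup Q) (h0 : ∀ x : D 0, ∃ y, d 0 y = x)
    (h1 : ∀ x : D 1, d 0 x = 0 → ∃ y, d 1 y = x) {T : ℕ} (hT : 2 ≤ T) {Γ : Subgroup Q}
    (hΓ : Γ ≤ K) (hG : Gen σ d ρ T Γ) : CoEx σ d ρ (K : Set Q) 2 := by
  obtain ⟨s0, s1, hs0, hs1, e0, e1⟩ := contr σ d hσ hP K h0 h1
  intro f hf hfd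
  refine ⟨f ∘ₗ s1, hf.comp hs1, LinearMap.ext fun x => ?_⟩
  rw [LinearMap.comp_apply, LinearMap.comp_apply]
  have h2 := van σ d ρ hG hT f (fun g hg x => hf g (hΓ hg) x) hfd (x - s1 (d 1 x)) (by
    rw [map_sub, e1, hdd, map_zero, sub_zero, sub_self])
  rw [map_sub, sub_eq_zero] at h2
  exact h2.symm

/-- exactness in degree three -/
theorem coEx_three {ι : Type} (Γ : ι → Subgroup Q) (K : Subgroup Q) (hK : K = ⨆ a, Γ a)
    (h0 : ∀ x : D 0, ∃ y, d 0 y = x) (h1 : ∀ x : D 1, d 0 x = 0 → ∃ y, d 1 y = x)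
    (hG : ∀ a, Gen σ d ρ 3 (Γ a)) (C : ι → ι → Prop)
    (hC : ∀ a b, C a b → ∀ x ∈ Γ a, ∀ y ∈ Γ b, x * y = y * x)
    (hne : Nonempty ι) (hnb : ∀ a, ∃ b, C a b) (hconn : ∀ a b, Relation.ReflTransGen C a b) :
    CoEx σ d ρ (K : Set Q) 3 := by
  have hle : ∀ a, Γ a ≤ K := fun a => by rw [hK]; exact le_iSup Γ a
  obtain ⟨s0, s1, hs0, hs1, e0, e1⟩ := contr σ d hσ hP K h0 h1
  have hd : ∀ (H : Subgroup Q) n, Eqv (H : Set Q) (σ (n + 1)) (σ n) (d n) :=
    fun H n g _ x => hσ n g x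
  -- the projection onto the cycles
  let e : D 2 →ₗ[k] D 2 := LinearMap.id - s1 ∘ₗ d 1
  have he : ∀ x, e x = x - s1 (d 1 x) := fun x => rfl
  have hee : Eqv (K : Set Q) (σ 2) (σ 2) e :=
    Eqv.sub (fun g _ x => rfl) (hs1.comp (hd K 1))
  have hde : ∀ x, d 1 (e x) = 0 := by
    intro x
    rw [he, map_sub, e1, hdd, map_zero, sub_zero, sub_self]
  have hez : ∀ z, d 1 z = 0 → e z = z := by
    intro z hz
    rw [he, hz, map_zero, sub_zero]
  intro φ hφ hφd
  obtain ⟨a0⟩ := hne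
  have hvan : ∀ z, d 2 z = 0 → φ z = 0 := fun z hz =>
    van σ d ρ (hG a0) le_rfl φ (fun g hg x => hφ g (hle a0 hg) x) hφd z hz
  have hdep : ∀ z z', d 2 z = d 2 z' → φ z = φ z' := by
    intro z z' h
    rw [← sub_eq_zero, ← map_sub]
    exact hvan _ (by rw [map_sub, h, sub_self])
  -- extensions of the map
  let P : (D 2 →ₗ[k] M) → Prop := fun θ => (∀ x, θ (d 2 x) = φ x) ∧ ∀ x, θ (e x) = θ x
  have huniq : ∀ (b : ι) (θ θ' : D 2 →ₗ[k] M), P θ → P θ' → Eqv (Γ b : Set Q) (σ 2) ρ θ →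
      Eqv (Γ b : Set Q) (σ 2) ρ θ' → θ = θ' := by
    rintro b θ θ' ⟨p1, p2⟩ ⟨p1', p2'⟩ hθ hθ'
    refine LinearMap.ext fun x => ?_
    have h2 := van σ d ρ (hG b) (by norm_num : 1 + 1 ≤ 3) (θ - θ') (hθ.sub hθ')
      (LinearMap.ext fun x => by
        rw [LinearMap.comp_apply, LinearMap.sub_apply, p1, p1', sub_self, LinearMap.zero_apply])
      (e x) (hde x)
    rw [LinearMap.sub_apply, p2, p2', sub_eq_zero] at h2
    exact h2
  have hex : ∀ a, ∃ θ : D 2 →ₗ[k] M, P θ ∧ ∀ b, C a b → Eqv (Γ b : Set Q) (σ 2) ρ θ := by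
    intro a
    obtain ⟨p, bb, aa, hb, ha, hba⟩ := hG a
    -- lifts
    have hlift : ∀ (H : Subgroup Q), H ≤ K → (∀ g ∈ H, ∀ γ ∈ Γ a, g * γ = γ * g) → ∀ j,
        ∃ h : D 2 →ₗ[k] D 3, Eqv (H : Set Q) (σ 2) (σ 3) h ∧
          ∀ x, d 2 (h x) = alg (σ 2) (Γ a) (aa j) (e x) := by
      intro H hHK hH j
      refine (hP H H.subtype Subtype.val_injective 2).lift' (σ 3) (σ 2) (d 2) (hd H 2)
        (alg (σ 2) (Γ a) (aa j) ∘ₗ e) ?_ (fun x => ha j 2 (by norm_num) (e x) (hde x))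
      intro g hg x
      rw [LinearMap.comp_apply, LinearMap.comp_apply, hee g (hHK hg),
        alg_eqv (σ 2) (Γ a) g (hH g hg)]
    choose h hh hh2 using hlift ⊥ bot_le (fun g hg γ _ => by
      rw [Subgroup.mem_bot.1 hg, one_mul, mul_one])
    refine ⟨∑ j, bb j ∘ₗ φ ∘ₗ h j, ⟨fun x => ?_, fun x => ?_⟩, fun b hab g hg x => ?_⟩
    · rw [LinearMap.sum_apply]
      have h2 := LinearMap.congr_fun hba (φ x)
      rw [LinearMap.sum_apply, LinearMap.id_apply] at h2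
      rw [← h2]
      refine Finset.sum_congr rfl fun j _ => ?_
      rw [LinearMap.comp_apply, LinearMap.comp_apply, LinearMap.comp_apply,
        ← alg_comm (σ 3) ρ (Γ a) φ (fun g hg x => hφ g (hle a hg) x) (aa j) x]
      congr 1
      refine hdep _ _ ?_
      rw [hh2, hez _ (hdd 1 x), alg_comm (σ 3) (σ 2) (Γ a) (d 2) (fun g _ y => hσ 2 g y)]
    · rw [LinearMap.sum_apply, LinearMap.sum_apply]
      refine Finset.sum_congr rfl fun j _ => ?_
      rw [LinearMap.comp_apply, LinearMap.comp_apply, LinearMap.comp_apply, LinearMap.comp_apply]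
      congr 1
      refine hdep _ _ ?_
      rw [hh2, hh2, hez _ (hde x)]
    · rw [LinearMap.sum_apply, LinearMap.sum_apply, map_sum]
      refine Finset.sum_congr rfl fun j _ => ?_
      rw [LinearMap.comp_apply, LinearMap.comp_apply, LinearMap.comp_apply, LinearMap.comp_apply]
      obtain ⟨h', hh', hh2'⟩ := hlift (Γ b) (hle b) (fun g hg γ hγ => (hC a b hab γ hγ g hg).symm) j
      have h3 : ∀ y, φ (h j y) = φ (h' y) := fun y => hdep _ _ (by rw [hh2, hh2'])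
      rw [h3, h3, hh' g hg, hφ g (hle b hg),
        hb j g (fun γ hγ => (hC a b hab γ hγ g hg).symm)]
  choose θ hθP hθ using hex
  -- conjugates
  have hconj : ∀ a, Eqv (Γ a : Set Q) (σ 2) ρ (θ a) := by
    intro a γ hγ x
    obtain ⟨b, hab⟩ := hnb a
    have h2 : ρ γ ∘ₗ θ a ∘ₗ σ 2 γ⁻¹ = θ a := by
      refine huniq b _ _ ⟨fun x => ?_, fun x => ?_⟩ (hθP a) ?_ (hθ a b hab)
      · rw [LinearMap.comp_apply, LinearMap.comp_apply, ← hσ, (hθP a).1,
          ← hφ γ (hle a hγ), ← Module.End.mul_apply, ← map_mul, mul_inv_cancel, map_one]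
        rfl
      · rw [LinearMap.comp_apply, LinearMap.comp_apply, LinearMap.comp_apply, LinearMap.comp_apply,
          ← hee γ⁻¹ (K.inv_mem (hle a hγ)), (hθP a).2]
      · intro g hg x
        have h3 : γ⁻¹ * g = g * γ⁻¹ := by
          have h4 := hC a b hab γ⁻¹ ((Γ a).inv_mem hγ) g hg
          exact h4
        rw [LinearMap.comp_apply, LinearMap.comp_apply, LinearMap.comp_apply, LinearMap.comp_apply,
          ← Module.End.mul_apply, ← map_mul, h3, map_mul, Module.End.mul_apply,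
          hθ a b hab g hg, ← Module.End.mul_apply, ← Module.End.mul_apply, ← map_mul, ← map_mul,
          hC a b hab γ hγ g hg]
    have h5 := LinearMap.congr_fun h2 (σ 2 γ x)
    rw [LinearMap.comp_apply, LinearMap.comp_apply, ← Module.End.mul_apply (σ 2 γ⁻¹), ← map_mul,
      inv_mul_cancel, map_one] at h5
    exact h5.symm
  have hadj : ∀ a b, C a b → θ a = θ b := fun a b hab =>
    huniq b _ _ (hθP a) (hθP b) (hθ a b hab) (hconj b)
  have hall : ∀ a, θ a0 = θ a := by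
    intro a
    have h2 := hconn a0 a
    induction h2 with
    | refl => rfl
    | tail _ h3 ih => exact ih.trans (hadj _ _ h3)
  -- equivariance under the whole group
  have hKe : Eqv (K : Set Q) (σ 2) ρ (θ a0) := by
    let H : Subgroup Q :=
      { carrier := {g | ∀ x, θ a0 (σ 2 g x) = ρ g (θ a0 x)}
        mul_mem' := by
          intro g h hg hh x
          rw [map_mul, map_mul, Module.End.mul_apply, Module.End.mul_apply, hg, hh]
        one_mem' := by
          intro x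
          rw [map_one, map_one]
          rfl
        inv_mem' := by
          intro g hg x
          have h2 := hg (σ 2 g⁻¹ x)
          rw [← Module.End.mul_apply, ← map_mul, mul_inv_cancel, map_one] at h2
          have h3 : θ a0 x = ρ g (θ a0 (σ 2 g⁻¹ x)) := h2
          rw [h3, ← Module.End.mul_apply, ← map_mul, inv_mul_cancel, map_one]
          rfl }
    have h2 : K ≤ H := by
      rw [hK]
      refine iSup_le fun a g hg => ?_
      intro x
      rw [hall a]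
      exact hconj a g hg x
    exact fun g hg x => h2 hg x
  exact ⟨θ a0, hKe, LinearMap.ext fun x => (hθP a0).1 x⟩

/-- the conclusion for a group with a normal subgroup generated by such a family -/
theorem coEx_of_chain {ι : Type} (Γ : ι → Subgroup Q) (hnor : (⨆ a, Γ a).Normal)
    (h0 : ∀ x : D 0, ∃ y, d 0 y = x) (h1 : ∀ x : D 1, d 0 x = 0 → ∃ y, d 1 y = x)
    (hG : ∀ a, Gen σ d ρ 3 (Γ a)) (C : ι → ι → Prop)
    (hC : ∀ a b, C a b → ∀ x ∈ Γ a, ∀ y ∈ Γ b, x * y = y * x)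
    (hne : Nonempty ι) (hnb : ∀ a, ∃ b, C a b) (hconn : ∀ a b, Relation.ReflTransGen C a b)
    (t : ℕ) (ht : t ≤ 3) : CoEx σ d ρ (Set.univ : Set Q) t := by
  have hall : ∀ s ≤ 3, CoEx σ d ρ ((⨆ a, Γ a : Subgroup Q) : Set Q) s := by
    intro s hs
    rcases Nat.lt_or_ge s 2 with h | h
    · exact coEx_low σ d ρ hσ hdd hP _ h0 h1 s (by omega)
    · rcases Nat.lt_or_ge s 3 with h' | h'
      · obtain rfl : s = 2 := by omega
        obtain ⟨a0⟩ := hne
        exact coEx_two σ d ρ hσ hdd hP _ h0 h1 (by norm_num) (le_iSup Γ a0) (hG a0)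
      · obtain rfl : s = 3 := by omega
        exact coEx_three σ d ρ hσ hdd hP Γ _ rfl h0 h1 hG C hC hne hnb hconn
  intro f hf hfd
  refine descent σ d (⨆ a, Γ a) hσ hdd (fun n => ?_) t M ρ (fun s hs => hall s (by omega)) f hf hfd
    (hall t ht f (fun g _ x => hf g (Set.mem_univ g) x) hfd)
  exact hP Q (MonoidHom.id Q) Function.injective_id n

end

end Pool.Agent.Helper6K1.ZQ
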