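import Pool.Agent.Helper6K1.ZQ.Main

/-!
Bases generated by chains of commuting nonamenable subgroups: the conclusion.
-/

set_option autoImplicit false
set_option linter.unusedSectionVars false

open scoped Matrix

namespace Pool.Agent.Helper6K1.ZQ

open Pool.Agent.H919R4.ZS MonoidAlgebra Pool.Agent.TH38.ZT Pool.Agent.R807.ZK
open Pool.Agent.Helper6K1.ZM Pool.Agent.Helper6K1.ZP
open Pool.Agent.H496R3.ZS (IsAmenable)

noncomputable section

/-- the subgroups `Γ a` and `Γ b` commute -/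
def Commutes {Q : Type} [Group Q] {ι : Type} (Γ : ι → Subgroup Q) (a b : ι) : Prop :=
  ∀ x ∈ Γ a, ∀ y ∈ Γ b, x * y = y * x

theorem deep_of_chain {Q : Type} [Group Q] {ι : Type} (Γ : ι → Subgroup Q)
    (hΓ : ∀ a, ¬ IsAmenable (Γ a)) (hne : Nonempty ι) (hnb : ∀ a, ∃ b, Commutes Γ a b)
    (hconn : ∀ a b, Relation.ReflTransGen (Commutes Γ) a b) (hnor : (⨆ a, Γ a).Normal)
    (r : ℕ) (hr : r ≤ 2) : Deep Q r := by
  intro D _ _ σ d hσ hdd hP h0 h1 M _ _ ρ hgen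
  have htop : ((⊤ : Subgroup Q) : Set Q) = Set.univ := Subgroup.coe_top
  rcases Nat.lt_or_ge r 1 with h | h
  · obtain rfl : r = 0 := by omega
    rw [← htop]
    exact coEx_low σ d ρ hσ hdd hP ⊤ h0 h1 1 le_rfl
  · rcases Nat.lt_or_ge r 2 with h' | h'
    · obtain rfl : r = 1 := by omega
      obtain ⟨a0⟩ := hne
      rw [← htop]
      exact coEx_two σ d ρ hσ hdd hP ⊤ h0 h1 (T := 2) le_rfl le_top (hgen (Γ a0) (hΓ a0))
    · obtain rfl : r = 2 := by omega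
      exact coEx_of_chain σ d ρ hσ hdd hP Γ hnor h0 h1 (fun a => hgen (Γ a) (hΓ a))
        (Commutes Γ) (fun a b h => h) hne hnb hconn 3 le_rfl

theorem conclusion {G : Type} [Group G] (N : Subgroup G) [N.Normal] (hN : IsAmenable N)
    {ι : Type} (Γ : ι → Subgroup (G ⧸ N)) (hΓ : ∀ a, ¬ IsAmenable (Γ a)) (hne : Nonempty ι)
    (hnb : ∀ a, ∃ b, Commutes Γ a b) (hconn : ∀ a b, Relation.ReflTransGen (Commutes Γ) a b)
    (hnor : (⨆ a, Γ a).Normal) (Y : FinRes (G ⧸ N)) (hY : GoodBase Y 3)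
    (X : FinRes G) (hfin : ∀ q, 1 ≤ q → q ≤ 2 → FinDim X (toRat N) q) :
    ∃ j ≤ 3, Nontrivial (X.homology (toRed G) j) := by
  obtain ⟨k, hk, hk'⟩ := hY.exists_le (by norm_num)
  rcases Nat.lt_or_ge k 1 with h1 | h1
  · obtain ⟨j, hj, hj'⟩ := extension N hN X Y k hk' (Or.inr fun q h2 h3 => by omega)
    exact ⟨j, hj.trans hk, hj'⟩
  obtain ⟨r, rfl⟩ : ∃ r, k = r + 1 := ⟨k - 1, by omega⟩
  by_contra hcon
  push Not at hcon
  have h2 := main N hN X Y r (fun q hq hq' => hfin q hq (by omega))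
    (deep_of_chain Γ hΓ hne hnb hconn hnor r (by omega)) (fun j hj => hcon j (hj.trans hk))
  exact not_nontrivial_iff_subsingleton.2 ((exAt_iff Y _ _).1 h2) hk'

end

end Pool.Agent.Helper6K1.ZQ
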