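import Pool.Agent.Helper6K1.ZP.Concl2
import Pool.Agent.Helper6K1.ZQ.Chain
import Pool.Agent.Helper6K1.ZM.Base

/-!
Extensions with amenable kernel: the general form of the conclusion.
-/

set_option autoImplicit false
set_option linter.unusedSectionVars false

open scoped Matrix

namespace Pool.Agent.Helper6K1.ZQ

open Pool.Agent.H919R4.ZS MonoidAlgebra Pool.Agent.TH38.ZT Pool.Agent.R807.ZK
open Pool.Agent.Helper6K1.ZM Pool.Agent.Helper6K1.ZP
open Pool.Agent.H496R3.ZS (IsAmenable)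

noncomputable section

/-- The cohomology in degree `r + 1` of the relevant complexes of free modules (exact in degrees zero
and one, and such that the elements of the group algebras of the nonamenable subgroups which kill the
homology in degrees at most `r + 1` generate the unit ideals) vanishes. -/
def Deep (Q : Type) [Group Q] (r : ℕ) : Prop :=
  ∀ (D : ℕ → Type) (_ : ∀ n, AddCommGroup (D n)) (_ : ∀ n, Module ℚ (D n))
    (σ : ∀ n, Representation ℚ Q (D n)) (d : ∀ n, D (n + 1) →ₗ[ℚ] D n),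
    (∀ n g x, d n (σ (n + 1) g x) = σ n g (d n x)) → (∀ n x, d n (d (n + 1) x) = 0) →
    (∀ (H : Type) [Group H] (j : H →* Q), Function.Injective j → ∀ n, Proj ((σ n).comp j)) →
    (∀ x : D 0, ∃ y, d 0 y = x) → (∀ x : D 1, d 0 x = 0 → ∃ y, d 1 y = x) →
    ∀ (M : Type) (_ : AddCommGroup M) (_ : Module ℚ M) (ρ : Representation ℚ Q M),
    (∀ Γ : Subgroup Q, ¬ IsAmenable Γ → Gen σ d ρ (r + 1) Γ) → CoEx σ d ρ Set.univ (r + 1)

variable {G : Type} [Group G] (N : Subgroup G) [N.Normal]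

theorem main (hN : IsAmenable N) (X : FinRes G) (Y : FinRes (G ⧸ N)) (r : ℕ)
    (hfin : ∀ q, 1 ≤ q → q ≤ r → FinDim X (toRat N) q) (hQ : Deep (G ⧸ N) r)
    (hX : ∀ j ≤ r + 1, Subsingleton (X.homology (toRed G) j)) :
    ExAt Y (toRed (G ⧸ N)) (r + 1) := by
  set Q := G ⧸ N with hQ'
  let f : G →* Q := QuotientGroup.mk' N
  have hf : Function.Surjective f := QuotientGroup.mk'_surjective N
  obtain ⟨E, hE0, hE⟩ := fwd X Y (gmap f) (augm_gmap f)
  let dY : ∀ n, Matrix (Fin (Y.n (n + 1))) (Fin (Y.n n)) (MonoidAlgebra ℚ Q) :=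
    fun n => (Y.d n).map (rat Q)
  let F : ∀ n, Matrix (Fin (cs X (n + 1))) (Fin (Y.n n)) (MonoidAlgebra ℚ Q) :=
    fun n => (E n).map (rat Q)
  have hY2 : ∀ n, dY (n + 1) * dY n = 0 := by
    intro n
    change (Y.d (n + 1)).map (rat Q) * (Y.d n).map (rat Q) = 0
    rw [← Matrix.map_mul, d_mul_d]
    ext; simp
  have hC2 : ∀ n, ds X f (n + 1) * ds X f n = 0 := by
    intro n
    cases n with
    | zero => exact Matrix.ext fun i j => Fin.elim0 j
    | succ n =>
      change (X.d (n + 1)).map ((rat Q).comp (gmap f)) * (X.d n).map ((rat Q).comp (gmap f)) = 0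
      rw [← Matrix.map_mul, d_mul_d]
      ext; simp
  have hF2 : ∀ n, ds X f (n + 1) * F n = F (n + 1) * dY n := by
    intro n
    change ((X.d n).map (gmap f)).map (rat Q) * (E n).map (rat Q) =
      (E (n + 1)).map (rat Q) * (Y.d n).map (rat Q)
    rw [← Matrix.map_mul, ← Matrix.map_mul, hE]
  have hYe : ∀ n (z : Fin (Y.n (n + 1)) → MonoidAlgebra ℚ Q), z ᵥ* dY n = 0 →
      ∃ w, w ᵥ* dY (n + 1) = z := rat_exact Y
  -- degree zero and one
  have h0 : ∀ x : DD ℚ Q Y.n (cs X) 0, ∃ y, dD dY (ds X f) F 0 y = x := by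
    rintro ⟨y, c⟩
    obtain ⟨y', c', h⟩ := cone_s0 hE0 y
    refine ⟨(y', c'), Prod.ext h ?_⟩
    exact funext fun j => Fin.elim0 j
  have hk1 : ∀ (x : DD ℚ Q Y.n (cs X) 1), dD dY (ds X f) F 0 x = 0 →
      ∃ y, dD dY (ds X f) F 1 y = x := by
    intro x hx
    obtain ⟨y, hy⟩ := cone_kill dY (ds X f) F hF2 hYe 0 1 (fun y c _ h => by
      obtain ⟨c', hc'⟩ := cone_s1 hf hE0 y c h
      exact ⟨c', by rw [one_smul]; exact hc'⟩) x hx
    exact ⟨y, by rw [hy, one_smul]⟩
  -- the annihilators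
  have hcof : ∀ Γ' : Subgroup Q, Cof {a : MonoidAlgebra ℚ Γ' | ∀ t ≤ r + 1,
      Kill (dD dY (ds X f) F) (fun n => alg (lm (DD ℚ Q Y.n (cs X) n)) Γ' a) t} := by
    intro Γ'
    have h1 : ∀ p ≤ r, Cof {a : MonoidAlgebra ℚ Q | ∀ n < p, ∀ z ∈ X.cyc (toRat N) (n + 1),
        a • z ∈ LinearMap.range (X.del (toRat N) (n + 1))} := by
      intro p
      induction p with
      | zero => exact fun _ => Cof.univ.mono fun a _ n hn => absurd hn (Nat.not_lt_zero n)
      | succ p ih =>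
        intro hp
        refine ((ih (by omega)).inter (cof_of_finDim X (toRat N) (p + 1)
          (hfin (p + 1) (by omega) hp))).mono ?_
        rintro a ⟨ha, ha'⟩ n hn
        rcases Nat.lt_succ_iff_lt_or_eq.1 hn with h | rfl
        · exact ha n h
        · exact ha'
    refine ((h1 r le_rfl).comap (inclQ Γ').toLinearMap).mono ?_
    intro a ha t ht
    have ha' : ∀ n < r, ∀ z ∈ X.cyc (toRat N) (n + 1),
        inclQ Γ' a • z ∈ LinearMap.range (X.del (toRat N) (n + 1)) := ha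
    cases t with
    | zero => exact fun x => h0 _
    | succ t =>
      intro x hx
      change ∃ y, dD dY (ds X f) F (t + 1) y = alg (lm (DD ℚ Q Y.n (cs X) (t + 1))) Γ' a x
      rw [alg_lm]
      cases t with
      | zero =>
        obtain ⟨y, rfl⟩ := hk1 x hx
        exact ⟨inclQ Γ' a • y, dD_smul _ _ _ _ _ _⟩
      | succ t =>
        refine cone_kill dY (ds X f) F hF2 hYe (t + 1) (inclQ Γ' a) (fun y c hc _ => ?_) x hx
        obtain ⟨c', hc'⟩ := ha' t (by omega) c hc
        exact ⟨c', hc'⟩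
  -- the contraction
  have hXi := coeff N hN X (r + 1) (fun j hj => (exAt_iff X _ j).2 (hX j hj))
  obtain ⟨s, -, hs⟩ := contraction' X (toQuot N) (r + 1) hXi
  have hmapY : ∀ n, (dY n).map (kap Q) = (Y.d n).map (toRed Q) := by
    intro n
    refine Matrix.ext fun i j => ?_
    exact toC_cpx _
  have hmapX : ∀ n, (ds X f (n + 1)).map (kap Q) = (X.d n).map (toQuot N) := by
    intro n
    refine Matrix.ext fun i j => ?_
    exact toC_cpx _
  intro x hx
  rw [← hmapY]
  refine cone_final (kap Q) dY (ds X f) F hF2 r (s r) (s (r + 1)) ?_ ?_ x (by rw [hmapY]; exact hx)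
  · rw [hmapX, hmapX]
    exact hs r le_rfl
  · intro M _ _ _ hκ
    exact hQ _ _ _ (fun n => lm (DD ℚ Q Y.n (cs X) n)) (dD dY (ds X f) F)
      (fun n g x => dD_eqv _ _ _ n g x) (fun n x => dD_dD _ _ _ hY2 hC2 hF2 n x)
      (fun H _ j hj n => proj_prod H j (proj_free _ H j hj) (proj_free _ H j hj)) h0 hk1
      M _ _ (repM (kap Q) hκ)
      (fun Γ' hΓ' => gen_of Γ' hΓ' _ _ (r + 1) (hcof Γ') M hκ)

end

end Pool.Agent.Helper6K1.ZQ
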